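import Mathlib
import Pool.Agent.Lib.helper4.Energy

set_option autoImplicit false

namespace Pool.Agent.H.MP_2eecae_co

open Matrix Finset

lemma pade {t : ℝ} (ht : 0 < t) : Real.log t ≤ (t - 1) * (t + 5) / (4 * t + 2) := by
  let f : ℝ → ℝ := fun t => (t - 1) * (t + 5) / (4 * t + 2) - Real.log t
  have hd : ∀ x, 0 < x → HasDerivAt f ((x - 1) ^ 3 / (x * (2 * x + 1) ^ 2)) x := by
    intro x hx
    have h1 : HasDerivAt (fun t : ℝ => (t - 1) * (t + 5)) (1 * (x + 5) + (x - 1) * 1) x :=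
      ((hasDerivAt_id x).sub_const 1).mul ((hasDerivAt_id x).add_const 5)
    have h2 : HasDerivAt (fun t : ℝ => 4 * t + 2) (4 * 1) x :=
      ((hasDerivAt_id x).const_mul 4).add_const 2
    have h3 := (h1.div h2 (by positivity)).sub (Real.hasDerivAt_log hx.ne')
    have h4 : 2 * x + 1 ≠ 0 := by positivity
    have h5 : 4 * x + 2 ≠ 0 := by positivity
    exact h3.congr_deriv (by field_simp; ring)
  have f1 : f 1 = 0 := by simp [f]
  have hc : ∀ s : Set ℝ, s ⊆ Set.Ioi 0 → ContinuousOn f s := fun s hs x hx =>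
    (hd x (hs hx)).continuousAt.continuousWithinAt
  suffices 0 ≤ f t by simpa [f] using this
  rcases le_total 1 t with h | h
  · have : MonotoneOn f (Set.Ici 1) := by
      refine monotoneOn_of_deriv_nonneg (convex_Ici 1) (hc _ fun x hx => ?_) (fun x hx => ?_)
        fun x hx => ?_
      · exact lt_of_lt_of_le one_pos (show (1 : ℝ) ≤ x from hx)
      · rw [interior_Ici] at hx
        exact (hd x (lt_trans one_pos hx)).differentiableAt.differentiableWithinAt
      · rw [interior_Ici] at hx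
        have hx' : (1 : ℝ) < x := hx
        rw [(hd x (by linarith)).deriv]
        have : 0 < x - 1 := by linarith
        positivity
    exact f1 ▸ this (le_refl (1 : ℝ)) h h
  · have : AntitoneOn f (Set.Ioc 0 1) := by
      refine antitoneOn_of_deriv_nonpos (convex_Ioc 0 1) (hc _ fun x hx => hx.1) (fun x hx => ?_)
        fun x hx => ?_
      · rw [interior_Ioc] at hx
        exact (hd x hx.1).differentiableAt.differentiableWithinAt
      · rw [interior_Ioc] at hx
        rw [(hd x hx.1).deriv]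
        have h1 := hx.1
        have h2 : (x - 1) ^ 3 ≤ 0 := Odd.pow_nonpos (by decide) (by linarith [hx.2])
        exact div_nonpos_of_nonpos_of_nonneg h2 (by positivity)
    exact f1 ▸ this ⟨ht, h⟩ ⟨one_pos, le_rfl⟩ h

lemma point {t s : ℝ} (ht : 0 < t) (hs : t ≤ 1 + s) :
    (t - 1) ^ 2 ≤ (2 + 4 * s / 3) * (t - 1 - Real.log t) := by
  have h := pade ht
  have h1 : 3 * (t - 1) ^ 2 / (4 * t + 2) ≤ t - 1 - Real.log t := by
    have : t - 1 - (t - 1) * (t + 5) / (4 * t + 2) = 3 * (t - 1) ^ 2 / (4 * t + 2) := by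
      field_simp; ring
    linarith
  have h2 : 0 ≤ t - 1 - Real.log t := le_trans (by positivity) h1
  rw [div_le_iff₀ (by positivity)] at h1
  nlinarith

lemma tang {x c : ℝ} (hx : 0 < x) (hc : 0 < c) : Real.log x ≤ Real.log c + x / c - 1 := by
  have := Real.log_le_sub_one_of_pos (div_pos hx hc)
  rw [Real.log_div hx.ne' hc.ne'] at this
  linarith

lemma final (d s e : ℕ) (w : ℝ) (hd : 1 ≤ d) (hs : 2 ≤ s) (hw : 0 ≤ w) (h1 : 2 * w + e < s)
    (h2 : 2 * ((d : ℝ) + s - e) - 9 / 4 * d ≤ w * (d + s + 9 / 4))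
    (h3 : ((d : ℝ) - 1) * (s - w) + 2 * e + 2 * w < (2 + 4 * s / 3) * (Real.log (d + w) - w - e)) :
    False := by
  have hd' : (1 : ℝ) ≤ d := by exact_mod_cast hd
  have hs' : (2 : ℝ) ≤ s := by exact_mod_cast hs
  have he : (0 : ℝ) ≤ e := by positivity
  have hp : (0 : ℝ) < d + w := by linarith
  have l2 := Real.log_two_lt_d9
  have l4 : Real.log 4 = 2 * Real.log 2 := by
    rw [show (4 : ℝ) = 2 ^ 2 by norm_num, Real.log_pow]; norm_num
  have l8 : Real.log 8 = 3 * Real.log 2 := by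
    rw [show (8 : ℝ) = 2 ^ 3 by norm_num, Real.log_pow]; norm_num
  have t1 := Real.log_le_sub_one_of_pos hp
  have t4 := tang hp (show (0 : ℝ) < 4 by norm_num)
  have t8 := tang hp (show (0 : ℝ) < 8 by norm_num)
  set r := Real.log (d + w) - w - e with hr
  have hL : 0 ≤ ((d : ℝ) - 1) * (s - w) := mul_nonneg (by linarith) (by linarith)
  have hr0 : 0 < r := by
    by_contra h
    have := mul_nonpos_of_nonneg_of_nonpos (show (0 : ℝ) ≤ 2 + 4 * s / 3 by positivity)
      (not_lt.1 h)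
    linarith
  by_cases h5 : 5 ≤ d
  · have h5' : (5 : ℝ) ≤ d := by exact_mod_cast h5
    have b1 : r ≤ 1.0795 + d / 8 - 7 / 8 * w := by linarith
    have b2 : (2 + 4 * s / 3) * r ≤ 7 / 3 * s * (1.0795 + d / 8 - 7 / 8 * w) :=
      mul_le_mul (by linarith) b1 hr0.le (by positivity)
    have p1 : 0 ≤ (s - 2 * w) * (d - 5) := mul_nonneg (by linarith) (by linarith)
    have p2 : 0 ≤ w * (d - 5) := mul_nonneg hw (by linarith)
    have p3 : 0 ≤ w * (s - 2) := mul_nonneg hw (by linarith)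
    nlinarith
  · have b1 : r ≤ 0.3863 + d / 4 - 3 / 4 * w - e := by linarith
    have b2 : (2 + 4 * s / 3) * r ≤ (2 + 4 * s / 3) * (0.3863 + d / 4 - 3 / 4 * w - e) :=
      mul_le_mul_of_nonneg_left b1 (by positivity)
    have p3 : 0 ≤ w * (s - 2) := mul_nonneg hw (by linarith)
    rcases Nat.eq_zero_or_pos e with rfl | he1
    · have : d = 1 ∨ d = 2 ∨ d = 3 ∨ d = 4 := by omega
      rcases this with rfl | rfl | rfl | rfl <;> push_cast at * 
      · linarith
      · have : 0.5 ≤ w := by nlinarith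
        nlinarith
      · have : 0.44 ≤ w := by nlinarith
        nlinarith
      · have : 0.36 ≤ w := by nlinarith
        nlinarith
    · have he1' : (1 : ℝ) ≤ e := by exact_mod_cast he1
      have p4 : 0 ≤ ((e : ℝ) - 1) * s := mul_nonneg (by linarith) (by linarith)
      have : d = 1 ∨ d = 2 ∨ d = 3 ∨ d = 4 := by omega
      rcases this with rfl | rfl | rfl | rfl <;> push_cast at * <;> nlinarith

variable {V : Type} [Fintype V] [DecidableEq V]

lemma ray {A : Matrix V V ℝ} (hA : A.IsHermitian) (l : ℝ) (h : ∀ i, hA.eigenvalues i ≤ l)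
    (y : V → ℝ) : y ⬝ᵥ A *ᵥ y ≤ l * (y ⬝ᵥ y) := by
  obtain ⟨U, h1, h2, h3⟩ := Pool.Agent.Lib.helper4.Energy.spec hA
  have e1 : y ⬝ᵥ A *ᵥ y = (Uᵀ *ᵥ y) ⬝ᵥ diagonal hA.eigenvalues *ᵥ (Uᵀ *ᵥ y) := by
    conv_lhs => rw [h3, ← mulVec_mulVec, ← mulVec_mulVec, dotProduct_mulVec, ← mulVec_transpose]
  have e2 : y ⬝ᵥ y = (Uᵀ *ᵥ y) ⬝ᵥ (Uᵀ *ᵥ y) := by
    rw [dotProduct_mulVec, vecMul_transpose, mulVec_mulVec, h2, one_mulVec]
  rw [e1, e2]
  simp only [dotProduct, mulVec_diagonal, mul_sum]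
  refine sum_le_sum fun i _ => ?_
  nlinarith [mul_self_nonneg ((Uᵀ *ᵥ y) i), h i]

lemma sq {A : Matrix V V ℝ} (hA : A.IsHermitian) :
    ∑ i, hA.eigenvalues i ^ 2 = (A * A).trace := by
  obtain ⟨U, h1, h2, h3⟩ := Pool.Agent.Lib.helper4.Energy.spec hA
  have : A * A = U * (diagonal hA.eigenvalues * diagonal hA.eigenvalues * Uᵀ) := by
    conv_lhs => rw [h3]
    calc _ = U * (diagonal hA.eigenvalues * (Uᵀ * U) * diagonal hA.eigenvalues * Uᵀ) := by
          simp only [Matrix.mul_assoc]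
      _ = _ := by rw [h1, Matrix.mul_one]
  rw [this, trace_mul_comm, Matrix.mul_assoc, h1, Matrix.mul_one, diagonal_mul_diagonal,
    trace_diagonal]
  simp [pow_two]

lemma eigv {A : Matrix V V ℝ} (hA : A.IsHermitian) (k : V) :
    ∃ x : V → ℝ, x ≠ 0 ∧ ∀ i, ∑ j, A i j * x j = hA.eigenvalues k * x i := by
  refine ⟨(hA.eigenvectorBasis k).ofLp, ?_, fun i => ?_⟩
  · intro h
    have := hA.eigenvectorBasis.orthonormal.ne_zero k
    exact this (by ext i; simpa using congrFun h i)
  · simpa [mulVec, dotProduct] using congrFun (hA.mulVec_eigenvectorBasis k) i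

lemma low (A : Matrix V V ℝ) (H : V → V → ℝ) (s μ : ℝ) (x : V → ℝ) (hx : x ≠ 0)
    (hH : ∀ i j, 0 ≤ H i j) (hs : ∀ i j, H i j = H j i) (hr : ∀ i, ∑ j, H i j ≤ s)
    (hA : ∀ i j, A i j = 1 - H i j - if i = j then 1 else 0)
    (he : ∀ i, ∑ j, A i j * x j = μ * x i) : -(1 + s) ≤ μ := by
  have p : 0 < ∑ i, x i ^ 2 := by
    obtain ⟨i, hi⟩ := Function.ne_iff.1 hx
    exact sum_pos' (fun _ _ => sq_nonneg _) ⟨i, mem_univ _, by
      have : x i ≠ 0 := hi
      positivity⟩
  have e1 : ∀ i, (μ + 1) * x i = ∑ j, x j - ∑ j, H i j * x j := by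
    intro i
    have := he i
    simp only [hA, sub_mul, one_mul, sum_sub_distrib, ite_mul, zero_mul, sum_ite_eq, mem_univ,
      if_true] at this
    linarith
  have e2 : (μ + 1) * ∑ i, x i ^ 2 = (∑ j, x j) ^ 2 - ∑ i, ∑ j, H i j * (x i * x j) := by
    rw [mul_sum, pow_two (∑ j, x j), sum_mul, ← sum_sub_distrib]
    refine sum_congr rfl fun i _ => ?_
    rw [pow_two, ← mul_assoc, e1 i, sub_mul, sum_mul _ (fun j => H i j * x j), mul_comm]
    congr 1
    exact sum_congr rfl fun j _ => by ring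
  have e3 : ∑ i, ∑ j, H i j * x i ^ 2 ≤ s * ∑ i, x i ^ 2 := by
    rw [mul_sum]
    refine sum_le_sum fun i _ => ?_
    rw [← sum_mul]
    exact mul_le_mul_of_nonneg_right (hr i) (sq_nonneg _)
  have e4 : ∑ i, ∑ j, H i j * x j ^ 2 = ∑ i, ∑ j, H i j * x i ^ 2 := by
    rw [sum_comm]; simp only [hs]
  have e5 : 2 * ∑ i, ∑ j, H i j * (x i * x j) ≤
      ∑ i, ∑ j, H i j * x i ^ 2 + ∑ i, ∑ j, H i j * x j ^ 2 := by
    rw [mul_sum, ← sum_add_distrib]
    refine sum_le_sum fun i _ => ?_
    rw [mul_sum, ← sum_add_distrib]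
    refine sum_le_sum fun j _ => ?_
    nlinarith [mul_nonneg (hH i j) (sq_nonneg (x i - x j))]
  by_contra c
  have : (μ + 1 + s) * ∑ i, x i ^ 2 < 0 := mul_neg_of_neg_of_pos (by linarith) p
  nlinarith [sq_nonneg (∑ j, x j)]

lemma hsf (A : Matrix V V ℝ) (H : V → V → ℝ) (D : V → ℝ) (d l : ℝ) (x : V → ℝ) (hx : x ≠ 0)
    (hl : 0 ≤ l) (hA0 : ∀ i j, 0 ≤ A i j) (hs : ∀ i j, A i j = A j i)
    (hH : ∀ i j, 0 ≤ H i j) (hD : ∀ i, ∑ j, A i j = D i) (hd : ∀ i, d ≤ D i)
    (hA : ∀ i j, A i j = 1 - H i j - if i = j then 1 else 0)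
    (he : ∀ i, ∑ j, A i j * x j = l * x i) :
    l * (l - d + 1) ≤ ∑ i, D i - (Fintype.card V - 1) * d := by
  have p : 0 < ∑ i, |x i| := by
    obtain ⟨i, hi⟩ := Function.ne_iff.1 hx
    exact sum_pos' (fun _ _ => abs_nonneg _) ⟨i, mem_univ _, abs_pos.2 hi⟩
  have z1 : ∀ i, l * |x i| ≤ ∑ j, A i j * |x j| := by
    intro i
    calc _ = |∑ j, A i j * x j| := by rw [he, abs_mul, abs_of_nonneg hl]
      _ ≤ _ := (abs_sum_le_sum_abs _ _).trans (le_of_eq (sum_congr rfl fun j _ => by
        rw [abs_mul, abs_of_nonneg (hA0 i j)]))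
  have z2 : ∑ i, ∑ j, A i j * |x j| = ∑ j, D j * |x j| := by
    rw [sum_comm]
    refine sum_congr rfl fun j _ => ?_
    rw [← sum_mul, ← hD j]; simp only [hs]
  have z3 : l * ∑ i, |x i| ≤ ∑ j, D j * |x j| := by
    rw [← z2, mul_sum]; exact sum_le_sum fun i _ => z1 i
  have row : ∀ j, ∑ i, A j i * (D i - d + 1) ≤ ∑ i, D i - (Fintype.card V - 1) * d := by
    intro j
    have a1 : ∑ i, A j i * (D i - d) = ∑ i, (D i - d) - ∑ i, H j i * (D i - d) - (D j - d) := by
      simp only [hA, sub_mul, one_mul, sum_sub_distrib, ite_mul, zero_mul, sum_ite_eq, mem_univ,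
        if_true]
    have a2 : 0 ≤ ∑ i, H j i * (D i - d) :=
      sum_nonneg fun i _ => mul_nonneg (hH j i) (by linarith [hd i])
    have a3 : ∑ i, A j i * (D i - d + 1) = ∑ i, A j i * (D i - d) + D j := by
      rw [← hD j, ← sum_add_distrib]; exact sum_congr rfl fun i _ => by ring
    rw [sum_sub_distrib] at a1
    simp only [sum_const, card_univ, nsmul_eq_mul] at a1
    linarith
  have up : ∑ i, (D i - d + 1) * ∑ j, A i j * |x j| ≤
      (∑ i, D i - (Fintype.card V - 1) * d) * ∑ i, |x i| := by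
    simp only [mul_sum]
    rw [sum_comm]
    refine sum_le_sum fun j _ => ?_
    refine le_trans (le_of_eq ?_) (mul_le_mul_of_nonneg_right (row j) (abs_nonneg _))
    rw [sum_mul]
    exact sum_congr rfl fun i _ => by rw [hs j i]; ring
  have lo : l * (∑ j, D j * |x j| - (d - 1) * ∑ i, |x i|) ≤
      ∑ i, (D i - d + 1) * ∑ j, A i j * |x j| := by
    rw [mul_sum, ← sum_sub_distrib, mul_sum]
    refine sum_le_sum fun i _ => ?_
    have := mul_le_mul_of_nonneg_left (z1 i) (show 0 ≤ D i - d + 1 by linarith [hd i])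
    linarith
  have := mul_le_mul_of_nonneg_left z3 hl
  refine le_of_mul_le_mul_right ?_ p
  nlinarith

lemma twin (G : SimpleGraph V) [DecidableRel G.Adj] (h : G.minDegree + 2 = Fintype.card V) :
    (G.adjMatrix ℝ).det = 0 := by
  have ne : Nonempty V := Fintype.card_pos_iff.1 (by omega)
  obtain ⟨v, hv⟩ := G.exists_minimal_degree_vertex
  have key : ∀ x : V, (univ.filter fun y => y ≠ x ∧ ¬ G.Adj x y).card + G.degree x + 1 =
      Fintype.card V := by
    intro x
    have : (univ.filter fun y => y ≠ x ∧ ¬ G.Adj x y) = (insert x (G.neighborFinset x))ᶜ := by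
      ext y; simp
    rw [this, card_compl, card_insert_of_notMem (by simp), G.card_neighborFinset_eq_degree]
    have := G.degree_lt_card_verts x
    omega
  have h1 := key v
  obtain ⟨u, hu⟩ := card_eq_one.1 (show (univ.filter fun y => y ≠ v ∧ ¬ G.Adj v y).card = 1 by
    omega)
  have hu' : u ≠ v ∧ ¬ G.Adj v u := by
    have : u ∈ univ.filter fun y => y ≠ v ∧ ¬ G.Adj v y := by rw [hu]; simp
    simpa using this
  have h2 := key u
  have h3 := G.minDegree_le_degree u
  have h4 : (univ.filter fun y => y ≠ u ∧ ¬ G.Adj u y).card ≤ 1 := by omega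
  refine det_zero_of_row_eq hu'.1 ?_
  ext y
  have : G.Adj u y ↔ G.Adj v y := by
    constructor
    · intro a
      by_contra b
      have yv : y ≠ v := by rintro rfl; exact hu'.2 a.symm
      have : y ∈ univ.filter fun y => y ≠ v ∧ ¬ G.Adj v y := by simp [yv, b]
      rw [hu, mem_singleton] at this
      exact a.ne this.symm
    · intro a
      by_contra b
      have yu : y ≠ u := by rintro rfl; exact hu'.2 a
      have := card_le_one.1 h4 y (by simp [yu, b]) v (by
        simp only [mem_filter, mem_univ, true_and]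
        exact ⟨hu'.1.symm, fun c => hu'.2 c.symm⟩)
      exact a.ne this.symm
  simp [SimpleGraph.adjMatrix_apply, this]

theorem main (G : SimpleGraph V) [DecidableRel G.Adj] (hA : (G.adjMatrix ℝ).IsHermitian)
    (hdet : (G.adjMatrix ℝ).det ≠ 0) :
    ((G.maxDegree + G.minDegree : ℕ) : ℝ) ≤ ∑ i, |hA.eigenvalues i| := by
  rcases isEmpty_or_nonempty V with hV | hV
  · simp [SimpleGraph.maxDegree, SimpleGraph.minDegree]
  set A := G.adjMatrix ℝ with hAdef
  set μ := hA.eigenvalues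
  obtain ⟨k, -, hk⟩ := exists_max_image univ μ univ_nonempty
  obtain ⟨v, hv⟩ := G.exists_maximal_degree_vertex
  set d := G.minDegree
  set M := G.maxDegree
  set n := Fintype.card V with hn
  let H : V → V → ℝ := fun i j => if i ≠ j ∧ ¬ G.Adj i j then 1 else 0
  have hH : ∀ i j, 0 ≤ H i j := fun i j => by simp only [H]; split_ifs <;> norm_num
  have hHs : ∀ i j, H i j = H j i := fun i j => by simp only [H, G.adj_comm i j, ne_comm]
  have hAH : ∀ i j, A i j = 1 - H i j - if i = j then 1 else 0 := by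
    intro i j
    by_cases e : i = j
    · simp [hAdef, H, e]
    · by_cases a : G.Adj i j <;> simp [hAdef, H, e, a]
  have hA0 : ∀ i j, 0 ≤ A i j := fun i j => by
    simp only [hAdef, SimpleGraph.adjMatrix_apply]; split_ifs <;> norm_num
  have hs : ∀ i j, A i j = A j i := fun i j => by
    simp only [hAdef, SimpleGraph.adjMatrix_apply, G.adj_comm i j]
  have hD : ∀ i, ∑ j, A i j = (G.degree i : ℝ) := fun i => by
    have := G.adjMatrix_mulVec_const_apply (α := ℝ) (a := 1) (v := i)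
    simp only [mulVec, dotProduct, Function.const_apply, mul_one] at this
    exact this
  have hd : ∀ i, (d : ℝ) ≤ G.degree i := fun i => by exact_mod_cast G.minDegree_le_degree i
  have hM : M < n := hv ▸ G.degree_lt_card_verts v
  have hdM : d ≤ M := hv ▸ G.minDegree_le_degree v
  have hr : ∀ i, ∑ j, H i j ≤ (n : ℝ) - 1 - d := by
    intro i
    have := hD i
    simp only [hAH, sum_sub_distrib, sum_ite_eq, mem_univ, if_true, sum_const, card_univ,
      nsmul_eq_mul, mul_one] at this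
    linarith [hd i]
  have T1 : ∑ i, μ i = 0 := by
    have := hA.trace_eq_sum_eigenvalues
    simpa [hAdef] using this.symm
  have T2 : ∑ i, μ i ^ 2 = ∑ i, (G.degree i : ℝ) := by
    rw [sq hA, trace]
    refine sum_congr rfl fun i _ => ?_
    rw [diag_apply, hAdef, SimpleGraph.adjMatrix_mul_self_apply_self]
  have T3 : 1 ≤ ∏ i, |μ i| := by
    rw [← abs_prod]
    have e1 : A.det = ∏ i, μ i := by simpa using hA.det_eq_prod_eigenvalues
    have e2 : A.det = ((G.adjMatrix ℤ).det : ℝ) := by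
      rw [Int.cast_det]; congr 1; ext i j; simp [hAdef, SimpleGraph.adjMatrix_apply]
    rw [← e1, e2]
    rw [e2] at hdet
    exact_mod_cast Int.one_le_abs (by exact_mod_cast hdet)
  have S1 : ((n : ℝ) - 1) * d + M ≤ ∑ i, (G.degree i : ℝ) := by
    have := single_le_sum (f := fun i => (G.degree i : ℝ) - d) (fun i _ => by linarith [hd i])
      (mem_univ v)
    simp only [sum_sub_distrib, sum_const, card_univ, nsmul_eq_mul, ← hv] at this
    linarith
  have T4 : ∀ c : ℝ, ∑ i, (G.degree i : ℝ) + 2 * c * M ≤ μ k * (n + 2 * c + c ^ 2) := by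
    intro c
    have := ray hA (μ k) (fun i => hk i (mem_univ _)) ((fun _ => 1) + c • Pi.single v 1)
    simp only [mulVec_add, add_dotProduct, dotProduct_add, mulVec_smul, smul_dotProduct,
      dotProduct_smul, smul_eq_mul] at this
    have a1 : ((fun _ => 1) ⬝ᵥ A *ᵥ fun _ => 1) = ∑ i, (G.degree i : ℝ) := by
      simp only [mulVec, dotProduct, mul_one, one_mul, hD]
    have a2 : (Pi.single v 1 ⬝ᵥ A *ᵥ fun _ => 1) = M := by
      rw [single_dotProduct]; simp only [mulVec, dotProduct, mul_one, one_mul, hD, hv]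
    have a3 : (fun _ => 1) ⬝ᵥ A *ᵥ Pi.single v 1 = M := by
      rw [mulVec_single_one]
      simp only [dotProduct, one_mul, col_apply, hs _ v, hD, hv]
    have a4 : Pi.single v 1 ⬝ᵥ A *ᵥ Pi.single v 1 = 0 := by
      rw [single_dotProduct, mulVec_single_one]; simp [hAdef]
    have a5 : ((fun _ : V => (1 : ℝ)) ⬝ᵥ fun _ => 1) = n := by simp [dotProduct, hn]
    rw [a1, a2, a3, a4, a5, single_dotProduct, dotProduct_single, single_dotProduct] at this
    simp only [Pi.single_eq_same] at this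
    linarith
  have hn1 : (1 : ℝ) ≤ n := by exact_mod_cast Nat.one_le_of_lt hM
  have hdM' : (d : ℝ) ≤ M := by exact_mod_cast hdM
  have hM' : (M : ℝ) + 1 ≤ n := by exact_mod_cast hM
  have hw : (d : ℝ) ≤ μ k := by
    have := T4 0
    refine le_of_mul_le_mul_right ?_ (show (0 : ℝ) < n by linarith)
    nlinarith
  have hd0 : (0 : ℝ) ≤ d := by positivity
  have hl : 0 ≤ μ k := by linarith
  by_contra hc
  push_cast at hc
  rw [not_le, ← add_sum_erase _ _ (mem_univ k), abs_of_nonneg hl] at hc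
  rw [← add_sum_erase _ _ (mem_univ k)] at T1 T2
  rw [← mul_prod_erase _ _ (mem_univ k), abs_of_nonneg hl] at T3
  set S := ∑ i ∈ univ.erase k, |μ i| with hS
  have P : ∀ i ∈ univ.erase k, |μ i| + μ i ≤ S - μ k := by
    intro i hi
    have := single_le_sum (f := fun i => |μ i| + μ i)
      (fun i _ => by linarith [neg_abs_le (μ i)]) hi
    rw [sum_add_distrib] at this
    linarith
  have P0 : 0 ≤ S - μ k := by
    have := sum_nonneg (s := univ.erase k) (f := fun i => |μ i| + μ i)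
      (fun i _ => by linarith [neg_abs_le (μ i)])
    rw [sum_add_distrib] at this
    linarith
  have hlt : d < M := by
    have : (d : ℝ) < M := by linarith
    exact_mod_cast this
  have hne : d + 2 ≠ n := fun e => hdet (twin G e)
  obtain ⟨s, hs2⟩ : ∃ s, n = d + s + 1 := ⟨n - d - 1, by omega⟩
  obtain ⟨e, he⟩ : ∃ e, n = M + e + 1 := ⟨n - M - 1, by omega⟩
  have hs2' : (n : ℝ) = d + s + 1 := by exact_mod_cast hs2
  have he' : (n : ℝ) = M + e + 1 := by exact_mod_cast he
  have he0 : (0 : ℝ) ≤ e := by positivity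
  have nz : ∀ i ∈ univ.erase k, 0 < |μ i| := by
    intro i hi
    refine lt_of_le_of_ne (abs_nonneg _) fun z => ?_
    rw [prod_eq_zero hi z.symm] at T3
    linarith
  have hl0 : μ k ≠ 0 := by rintro z; rw [z] at T3; linarith
  have up : ∀ i ∈ univ.erase k, |μ i| ≤ 1 + s := by
    intro i hi
    obtain ⟨x, hx, hx'⟩ := eigv hA i
    have l1 := low A H s (μ i) x hx hH hHs (fun j => by linarith [hr j]) hAH hx'
    have l2 := P i hi
    rw [abs_le]
    refine ⟨l1, ?_⟩
    linarith [le_abs_self (μ i)]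
  have sm := sum_le_sum fun i hi => point (nz i hi) (up i hi)
  have lg : 0 ≤ Real.log (μ k) + ∑ i ∈ univ.erase k, Real.log |μ i| := by
    rw [← Real.log_prod fun i hi => (nz i hi).ne', ← Real.log_mul hl0
      (prod_pos nz).ne']
    exact Real.log_nonneg T3
  have cd : ((univ.erase k).card : ℝ) = n - 1 := by
    rw [card_erase_of_mem (mem_univ k), card_univ, Nat.cast_sub (by omega)]; simp [hn]
  have e1 : ∑ i ∈ univ.erase k, (|μ i| - 1) ^ 2 = ∑ i ∈ univ.erase k, μ i ^ 2 - 2 * S + (n - 1) := by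
    rw [hS, mul_sum, ← sum_sub_distrib, ← cd, card_eq_sum_ones]
    push_cast
    rw [← sum_add_distrib]
    exact sum_congr rfl fun i _ => by rw [← sq_abs (μ i)]; ring
  rw [e1, ← mul_sum, sum_sub_distrib, sum_sub_distrib, ← hS] at sm
  simp only [sum_const, nsmul_eq_mul, mul_one, cd] at sm
  obtain ⟨x, hx, hx'⟩ := eigv hA k
  have T6 := hsf A H (fun i => (G.degree i : ℝ)) d (μ k) x hx hl hA0 hs hH hD hd hAH hx'
  have hd1 : 1 ≤ d := by
    by_contra z
    obtain ⟨u, hu⟩ := G.exists_minimal_degree_vertex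
    refine hdet (det_eq_zero_of_row_eq_zero u fun j => ?_)
    have h1 := single_le_sum (f := fun j => A u j) (fun j _ => hA0 u j) (mem_univ j)
    have h2 : G.degree u = 0 := by omega
    rw [hD, h2] at h1
    exact le_antisymm (by simpa using h1) (hA0 u j)
  have T5 := T4 (1 / 2)
  refine final d s e (μ k - d) hd1 (by omega) (by linarith) (by linarith) ?_ ?_
  · have : (M : ℝ) = d + s - e := by linarith
    rw [hs2', this] at T5 S1
    nlinarith
  · rw [add_sub_cancel]
    have h1 : (2 + 4 * (s : ℝ) / 3) * (S - (n - 1) - ∑ i ∈ univ.erase k, Real.log |μ i|) ≤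
        (2 + 4 * (s : ℝ) / 3) * (Real.log (μ k) - (μ k - d) - e) :=
      mul_le_mul_of_nonneg_left (by linarith) (by positivity)
    rw [← hn, hs2'] at T6
    rw [hs2'] at sm h1
    nlinarith

end Pool.Agent.H.MP_2eecae_co
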